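import Pool.Agent.H992.PM.Defs

/-!
# Cutoff functions
-/

set_option autoImplicit false
open MeasureTheory Filter Topology Complex ProbabilityTheory
open scoped ContDiff ENNReal

namespace Pool.Agent.H992.PM

open Pool.Agent.W745.RW (TF)

theorem cut {Ω : Set ℂ} (hΩ : IsOpen Ω) (χ : ℂ → ℝ) (hχ : TF Ω χ) :
    ∃ ψ, TF Ω ψ ∧ (∀ z, 0 ≤ ψ z) ∧ tsupport χ ⊆ {z | 0 < ψ z} := by
  obtain ⟨η, h1, h2, h3, h4⟩ := Pool.Agent.Y265.RW.cutoff hΩ hχ.2.1.isCompact hχ.2.2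
  refine ⟨η, h1, h2, fun z hz => ?_⟩
  show 0 < η z
  rw [h4 z hz]
  exact one_pos

end Pool.Agent.H992.PM
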