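import Pool.Agent.H992.SF.Fin

/-!
# Polynomials in the values of an eigenfunction: definitions and interfaces (MP_a54f13_nt)
-/

set_option autoImplicit false
open MeasureTheory Filter Topology Complex ProbabilityTheory
open scoped ContDiff ENNReal

namespace Pool.Agent.H992.PM

open Pool.Agent.W745.RW (TF)
open Pool.Agent.N661.BR (MW IsRandomWave)
open Pool.Agent.N661.BH (loc)
open Pool.Agent.N814.BHM (P mass)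
open Pool.Agent.N814.BHASM (Hyp X)
open Pool.Agent.H992.LB (eγ eX)

noncomputable section

/-- The mean of the polynomial `Q` in the values at the points `w j` of the rescaled function
`w ↦ u (z + y λ^{-1/2} w)`, over all orthonormal frames at `z = x + i y` (rotations and reflections
of the points `w j`), integrated against `ψ (z) dx dy / y²`. -/
def pMean (Ω : Set ℂ) (ψ : ℂ → ℝ) (lam : ℝ) (u : ℂ → ℝ) {k : ℕ} (w : Fin k → ℂ)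
    (Q : MvPolynomial (Fin k) ℝ) : ℝ :=
  ∫ z in Ω, ψ z / z.im ^ 2 * (1 / (4 * Real.pi) * ∫ θ in (0:ℝ)..(2 * Real.pi),
    (MvPolynomial.eval (fun j => loc lam u z (Complex.exp (θ * I) * w j)) Q +
      MvPolynomial.eval (fun j => loc lam u z (Complex.exp (θ * I) * starRingEnd ℂ (w j))) Q))

/-- the upper bound for polynomials in the values at points of `U` -/
def PBound (Ω : Set ℂ) (lam : ℕ → ℝ) (u : ℕ → ℂ → ℝ) (γ : Measure MW) (U : Set ℂ)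
    (ψ : ℂ → ℝ) : Prop :=
  ∃ C : ℝ, ∀ (k : ℕ) (w : Fin k → ℂ) (Q : MvPolynomial (Fin k) ℝ), (∀ j, w j ∈ U) →
    ∀ ε : ℝ, 0 < ε → ∀ᶠ n in atTop, pMean Ω ψ (lam n) (u n) w Q ^ 2 ≤
      C * (∫ f : MW, MvPolynomial.eval (fun j => f (w j)) Q ^ 2 ∂γ) + ε

/-- the real part of the local field -/
def Xr (lam : ℝ) (u : ℂ → ℝ) (w : ℂ) (p : ℂ × (ℝ × Bool)) : ℝ := (X lam u 0 w p).re

/-- the law of the rescaled function with weight `ψ` converges to `γ` -/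
def WConv (Ω : Set ℂ) (lam : ℕ → ℝ) (u : ℕ → ℂ → ℝ) (γ : Measure MW) (ψ : ℂ → ℝ) : Prop :=
  ∀ τ : ℂ →₀ ℝ, Tendsto (fun n => ∫ p, (ψ p.1 : ℂ) * eX (lam n) (u n) τ p ∂(P Ω)) atTop
    (𝓝 ((∫ f, eγ τ f ∂γ) * ∫ p, (ψ p.1 : ℂ) ∂(P Ω)))

/-- the moments with weight `ψ` are bounded -/
def MB (Ω : Set ℂ) (lam : ℕ → ℝ) (u : ℕ → ℂ → ℝ) (ψ : ℂ → ℝ) : Prop :=
  ∀ (v : ℂ) (q : ℕ), ∃ M : ℝ, ∀ᶠ n in atTop,
    Integrable (fun p => ψ p.1 * |Xr (lam n) (u n) v p| ^ q) (P Ω) ∧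
      ∫ p, ψ p.1 * |Xr (lam n) (u n) v p| ^ q ∂(P Ω) ≤ M

/-! ### Interfaces -/

/-- PM/BR -/
def S_PB : Prop := ∀ (Ω : Set ℂ) (lam : ℕ → ℝ) (u : ℕ → ℂ → ℝ), Hyp Ω lam u → ∀ ψ, TF Ω ψ →
  ∀ (k : ℕ) (w : Fin k → ℂ) (Q : MvPolynomial (Fin k) ℝ), ∀ᶠ n in atTop,
    Integrable (fun p => ψ p.1 *
      MvPolynomial.eval (fun j => Xr (lam n) (u n) (w j) p) Q) (P Ω) ∧
    pMean Ω ψ (lam n) (u n) w Q = mass Ω * ∫ p, ψ p.1 *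
      MvPolynomial.eval (fun j => Xr (lam n) (u n) (w j) p) Q ∂(P Ω)

/-- PM/TRIG: from polynomials to trigonometric sums -/
def S_PT : Prop := ∀ (Ω : Set ℂ) (lam : ℕ → ℝ) (u : ℕ → ℂ → ℝ), Hyp Ω lam u →
  ∀ γ : Measure MW, IsProbabilityMeasure γ → IsRandomWave γ → ∀ ψ, TF Ω ψ → (∀ z, 0 ≤ ψ z) →
  ∀ U : Set ℂ, PBound Ω lam u γ U ψ →
  ∃ C : ℝ, ∀ (n : ℕ) (c : Fin n → ℂ) (τ : Fin n → ℂ →₀ ℝ),
    (∀ m, (↑(τ m).support : Set ℂ) ⊆ U) → ∀ ε : ℝ, 0 < ε → ∀ᶠ l in atTop,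
      ‖∑ m, c m * ∫ p, (ψ p.1 : ℂ) * eX (lam l) (u l) (τ m) p ∂(P Ω)‖ ^ 2 ≤
        C * (∫ f, ‖∑ m, c m * eγ (τ m) f‖ ^ 2 ∂γ) + ε

/-- PM/W: convergence of the weighted local laws -/
def S_PW : Prop := ∀ (Ω : Set ℂ) (lam : ℕ → ℝ) (u : ℕ → ℂ → ℝ), Hyp Ω lam u →
  ∀ γ : Measure MW, IsProbabilityMeasure γ → IsRandomWave γ → ∀ ψ, TF Ω ψ → (∀ z, 0 ≤ ψ z) →
  ∀ U : Set ℂ, IsOpen U → U.Nonempty →
  (∃ C : ℝ, ∀ (n : ℕ) (c : Fin n → ℂ) (τ : Fin n → ℂ →₀ ℝ),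
    (∀ m, (↑(τ m).support : Set ℂ) ⊆ U) → ∀ ε : ℝ, 0 < ε → ∀ᶠ l in atTop,
      ‖∑ m, c m * ∫ p, (ψ p.1 : ℂ) * eX (lam l) (u l) (τ m) p ∂(P Ω)‖ ^ 2 ≤
        C * (∫ f, ‖∑ m, c m * eγ (τ m) f‖ ^ 2 ∂γ) + ε) →
  WConv Ω lam u γ ψ

/-- PM/X: other weights -/
def S_PX : Prop := ∀ (Ω : Set ℂ) (lam : ℕ → ℝ) (u : ℕ → ℂ → ℝ), Hyp Ω lam u →
  ∀ γ : Measure MW, IsProbabilityMeasure γ → IsRandomWave γ → ∀ ψ, TF Ω ψ → (∀ z, 0 ≤ ψ z) →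
  WConv Ω lam u γ ψ → ∀ χ, TF Ω χ → (∃ K : ℝ, ∀ z, |χ z| ≤ K * ψ z) → WConv Ω lam u γ χ

/-- PM/MB: moments -/
def S_PM : Prop := ∀ (Ω : Set ℂ) (lam : ℕ → ℝ) (u : ℕ → ℂ → ℝ), Hyp Ω lam u →
  ∀ γ : Measure MW, IsProbabilityMeasure γ → IsRandomWave γ → ∀ ψ, TF Ω ψ → (∀ z, 0 ≤ ψ z) →
  ∀ U : Set ℂ, U.Nonempty → PBound Ω lam u γ U ψ →
  ∀ χ, TF Ω χ → (∀ z, 0 ≤ χ z) → tsupport χ ⊆ {z | 0 < ψ z} → MB Ω lam u χ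

/-- PM/GM: the moments of the random wave -/
def S_GM : Prop := ∀ γ : Measure MW, IsProbabilityMeasure γ → IsRandomWave γ →
  (∀ (w : ℂ) (q : ℕ), Integrable (fun f : MW => |f w| ^ q) γ) ∧
  ∀ (w : ℂ) (q : ℕ), ∫ f : MW, f w ^ q ∂γ = ∫ x, x ^ q ∂(gaussianReal 0 1)

/-- PM/C: from characteristic functions to polynomials -/
def S_PC : Prop := ∀ (Z : Type) (_ : MeasurableSpace Z) (Q : Measure Z), IsFiniteMeasure Q →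
  ∀ (Z' : Type) (_ : MeasurableSpace Z') (γ : Measure Z'), IsProbabilityMeasure γ →
  ∀ (k : ℕ) (Y : ℕ → Z → Fin k → ℝ) (V : Z' → Fin k → ℝ), (∀ n, Measurable (Y n)) →
  Measurable V →
  (∀ t : Fin k → ℝ, Tendsto (fun n => ∫ z, Complex.exp (I * ((∑ j, t j * Y n z j : ℝ) : ℂ)) ∂Q)
    atTop (𝓝 ((∫ z, Complex.exp (I * ((∑ j, t j * V z j : ℝ) : ℂ)) ∂γ) *
      ((Q Set.univ).toReal : ℂ)))) →
  (∀ (j : Fin k) (q : ℕ), ∃ M : ℝ, ∀ᶠ n in atTop, Integrable (fun z => |Y n z j| ^ q) Q ∧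
    ∫ z, |Y n z j| ^ q ∂Q ≤ M) →
  (∀ (j : Fin k) (q : ℕ), Integrable (fun z => |V z j| ^ q) γ) →
  ∀ R : MvPolynomial (Fin k) ℝ, Tendsto (fun n => ∫ z, MvPolynomial.eval (Y n z) R ∂Q) atTop
    (𝓝 ((∫ z, MvPolynomial.eval (V z) R ∂γ) * (Q Set.univ).toReal))

/-- PM/P: convergence of the polynomial means, positive weights -/
def S_PP : Prop := ∀ (Ω : Set ℂ) (lam : ℕ → ℝ) (u : ℕ → ℂ → ℝ), Hyp Ω lam u →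
  ∀ γ : Measure MW, IsProbabilityMeasure γ → IsRandomWave γ → ∀ χ, TF Ω χ → (∀ z, 0 ≤ χ z) →
  WConv Ω lam u γ χ → MB Ω lam u χ →
  ∀ (k : ℕ) (w : Fin k → ℂ) (Q : MvPolynomial (Fin k) ℝ),
    Tendsto (fun n => pMean Ω χ (lam n) (u n) w Q) atTop
      (𝓝 ((∫ f : MW, MvPolynomial.eval (fun j => f (w j)) Q ∂γ) *
        ∫ z in Ω, χ z / z.im ^ 2))

/-- PM/S: the local theorem -/
def S_PS : Prop := ∀ (Ω : Set ℂ) (lam : ℕ → ℝ) (u : ℕ → ℂ → ℝ), Hyp Ω lam u →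
  ∀ γ : Measure MW, IsProbabilityMeasure γ → IsRandomWave γ → ∀ ψ, TF Ω ψ → (∀ z, 0 ≤ ψ z) →
  ∀ U : Set ℂ, IsOpen U → U.Nonempty → PBound Ω lam u γ U ψ →
  ∀ χ, TF Ω χ → tsupport χ ⊆ {z | 0 < ψ z} →
  ∀ (k : ℕ) (w : Fin k → ℂ) (Q : MvPolynomial (Fin k) ℝ),
    Tendsto (fun n => pMean Ω χ (lam n) (u n) w Q) atTop
      (𝓝 ((∫ f : MW, MvPolynomial.eval (fun j => f (w j)) Q ∂γ) *
        ∫ z in Ω, χ z / z.im ^ 2))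

/-- PM/Q: powers -/
def S_PQ : Prop := ∀ (Ω : Set ℂ) (χ : ℂ → ℝ) (lam : ℝ) (u : ℂ → ℝ) (q : ℕ),
  pMean Ω χ lam u (fun _ : Fin 1 => 0) (MvPolynomial.X 0 ^ q) =
    ∫ z in Ω, χ z / z.im ^ 2 * u z ^ q

/-- PM/V: the converse -/
def S_PV : Prop := ∀ (Ω : Set ℂ) (lam : ℕ → ℝ) (u : ℕ → ℂ → ℝ) (γ : Measure MW),
  IsProbabilityMeasure γ → IsRandomWave γ → ∀ ψ : ℂ → ℝ,
  (∀ (k : ℕ) (w : Fin k → ℂ) (Q : MvPolynomial (Fin k) ℝ),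
    Tendsto (fun n => pMean Ω ψ (lam n) (u n) w Q) atTop
      (𝓝 ((∫ f : MW, MvPolynomial.eval (fun j => f (w j)) Q ∂γ) *
        ∫ z in Ω, ψ z / z.im ^ 2))) →
  ∀ U : Set ℂ, PBound Ω lam u γ U ψ

theorem main (hs : S_PS) (hq : S_PQ) (hv : S_PV) (hg : S_GM) (Ω : Set ℂ) (lam : ℕ → ℝ)
    (u : ℕ → ℂ → ℝ) (H : Hyp Ω lam u) (γ : Measure MW) (hγp : IsProbabilityMeasure γ)
    (hγ : IsRandomWave γ) (U : Set ℂ) (hU : IsOpen U) (hne : U.Nonempty)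
    (hcut : ∀ χ, TF Ω χ → ∃ ψ, TF Ω ψ ∧ (∀ z, 0 ≤ ψ z) ∧ tsupport χ ⊆ {z | 0 < ψ z}) :
    (∀ ψ, TF Ω ψ → (∀ z, 0 ≤ ψ z) →
      (∃ C : ℝ, ∀ (k : ℕ) (w : Fin k → ℂ) (Q : MvPolynomial (Fin k) ℝ), (∀ j, w j ∈ U) →
        ∀ ε : ℝ, 0 < ε → ∀ᶠ n in atTop, pMean Ω ψ (lam n) (u n) w Q ^ 2 ≤
          C * (∫ f : MW, MvPolynomial.eval (fun j => f (w j)) Q ^ 2 ∂γ) + ε) →
      ∀ χ, TF Ω χ → tsupport χ ⊆ {z | 0 < ψ z} →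
        (∀ (k : ℕ) (w : Fin k → ℂ) (Q : MvPolynomial (Fin k) ℝ),
          Tendsto (fun n => pMean Ω χ (lam n) (u n) w Q) atTop
            (𝓝 ((∫ f : MW, MvPolynomial.eval (fun j => f (w j)) Q ∂γ) *
              ∫ z in Ω, χ z / z.im ^ 2))) ∧
        ∀ q : ℕ, Tendsto (fun n => ∫ z in Ω, χ z / z.im ^ 2 * u n z ^ q) atTop
          (𝓝 ((∫ x, x ^ q ∂(gaussianReal 0 1)) * ∫ z in Ω, χ z / z.im ^ 2))) ∧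
    ((∀ ψ, TF Ω ψ → (∀ z, 0 ≤ ψ z) →
      ∃ C : ℝ, ∀ (k : ℕ) (w : Fin k → ℂ) (Q : MvPolynomial (Fin k) ℝ), (∀ j, w j ∈ U) →
        ∀ ε : ℝ, 0 < ε → ∀ᶠ n in atTop, pMean Ω ψ (lam n) (u n) w Q ^ 2 ≤
          C * (∫ f : MW, MvPolynomial.eval (fun j => f (w j)) Q ^ 2 ∂γ) + ε) ↔
      ∀ χ, TF Ω χ → ∀ (k : ℕ) (w : Fin k → ℂ) (Q : MvPolynomial (Fin k) ℝ),
        Tendsto (fun n => pMean Ω χ (lam n) (u n) w Q) atTop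
          (𝓝 ((∫ f : MW, MvPolynomial.eval (fun j => f (w j)) Q ∂γ) *
            ∫ z in Ω, χ z / z.im ^ 2))) := by
  have h1 := hs Ω lam u H γ hγp hγ
  refine ⟨fun ψ hψ h0 hb χ hχ hsub => ⟨h1 ψ hψ h0 U hU hne hb χ hχ hsub, fun q => ?_⟩,
    fun hb χ hχ => ?_, fun hc ψ hψ _ => hv Ω lam u γ hγp hγ ψ (hc ψ hψ) U⟩
  · have h2 := h1 ψ hψ h0 U hU hne hb χ hχ hsub 1 (fun _ => 0) (MvPolynomial.X 0 ^ q)
    have h3 := (hg γ hγp hγ).2 0 q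
    simp only [map_pow, MvPolynomial.eval_X] at h2
    rw [h3] at h2
    exact h2.congr fun n => hq Ω χ (lam n) (u n) q
  · obtain ⟨ψ, hψ, h0, hsub⟩ := hcut χ hχ
    exact h1 ψ hψ h0 U hU hne (hb ψ hψ h0) χ hχ hsub

end

end Pool.Agent.H992.PM
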