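import Pool.Agent.H992.PM.Defs

/-!
# Moments of the random wave
-/

set_option autoImplicit false
open MeasureTheory Filter Topology Complex ProbabilityTheory
open scoped ContDiff ENNReal

namespace Pool.Agent.H992.PM

open Pool.Agent.N661.BR (MW lin IsRandomWave J0)

theorem law0 {γ : Measure MW} (hγ : IsRandomWave γ) (w : ℂ) :
    Measurable (fun f : MW => f w) ∧ γ.map (fun f : MW => f w) = gaussianReal 0 1 := by
  have h2 := hγ 1 (fun _ => w) (fun _ => 1)
  have hl : (lin (fun _ : Fin 1 => w) (fun _ : Fin 1 => (1:ℝ))) = fun f : MW => f w := by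
    funext f
    simp [lin]
  have hm := Pool.Agent.H155.SF.meas_lin' (fun _ : Fin 1 => w) (fun _ : Fin 1 => (1:ℝ))
  rw [hl] at h2 hm
  refine ⟨hm, h2.trans ?_⟩
  congr 1
  simp only [Finset.univ_unique, Finset.sum_singleton, sub_self, norm_zero,
    Pool.Agent.H155.SF.J0_at_zero, mul_one, Real.toNNReal_one]

theorem gauss_pow (q : ℕ) : Integrable (fun x : ℝ => |x| ^ q) (gaussianReal 0 1) := by
  have h1 : MemLp (id : ℝ → ℝ) (q : ℝ≥0∞) (gaussianReal 0 1) := by
    have := memLp_id_gaussianReal (μ := 0) (v := 1) (q : NNReal)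
    simpa using this
  exact (h1.integrable_norm_pow' ).congr (Eventually.of_forall fun x => by simp)

theorem gm : S_GM := by
  intro γ hγp hγ
  refine ⟨fun w q => ?_, fun w q => ?_⟩
  · obtain ⟨hm, hl⟩ := law0 hγ w
    have h1 := gauss_pow q
    rw [← hl] at h1
    exact (integrable_map_measure (by fun_prop) hm.aemeasurable).1 h1
  · obtain ⟨hm, hl⟩ := law0 hγ w
    rw [← hl, integral_map hm.aemeasurable (by fun_prop)]

end Pool.Agent.H992.PM
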