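import Pool.Agent.H992.PM.Cut
import Pool.Agent.H800.PM.PB
import Pool.Agent.H962.PM.PT
import Pool.Agent.H551.PM.PW
import Pool.Agent.H233.PM.PX
import Pool.Agent.H364.PM.MBD
import Pool.Agent.H297.PM.PC
import Pool.Agent.H640.PM.PP
import Pool.Agent.H505.PM.PS
import Pool.Agent.H358.PM.PQ
import Pool.Agent.H370.PM.PV
import Pool.Agent.H992.PM.GM
/-!
# Polynomial bounds: final assembly (MP_a54f13_nt)
-/

set_option autoImplicit false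
open MeasureTheory Filter Topology Complex ProbabilityTheory
open scoped ContDiff ENNReal

namespace Pool.Agent.H992.PM

open Pool.Agent.W745.RW (TF)
open Pool.Agent.N661.BR (MW IsRandomWave)
open Pool.Agent.N814.BHASM (Hyp)

theorem p_pp : S_PP := Pool.Agent.H640.PM.pp Pool.Agent.H800.PM.pb gm Pool.Agent.H297.PM.pc
theorem p_mb : S_PM := Pool.Agent.H364.PM.mbd Pool.Agent.H800.PM.pb gm
theorem p_ps : S_PS :=
  Pool.Agent.H505.PM.ps Pool.Agent.H800.PM.pb (Pool.Agent.H962.PM.pt Pool.Agent.H800.PM.pb gm)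
    Pool.Agent.H551.PM.pw Pool.Agent.H233.PM.px p_mb p_pp

theorem fin (Ω : Set ℂ) (lam : ℕ → ℝ)
    (u : ℕ → ℂ → ℝ) (H : Hyp Ω lam u) (γ : Measure MW) (hγp : IsProbabilityMeasure γ)
    (hγ : IsRandomWave γ) (U : Set ℂ) (hU : IsOpen U) (hne : U.Nonempty) :
    (∀ ψ, TF Ω ψ → (∀ z, 0 ≤ ψ z) →
      (∃ C : ℝ, ∀ (k : ℕ) (w : Fin k → ℂ) (Q : MvPolynomial (Fin k) ℝ), (∀ j, w j ∈ U) →
        ∀ ε : ℝ, 0 < ε → ∀ᶠ n in atTop, pMean Ω ψ (lam n) (u n) w Q ^ 2 ≤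
          C * (∫ f : MW, MvPolynomial.eval (fun j => f (w j)) Q ^ 2 ∂γ) + ε) →
      ∀ χ, TF Ω χ → tsupport χ ⊆ {z | 0 < ψ z} →
        (∀ (k : ℕ) (w : Fin k → ℂ) (Q : MvPolynomial (Fin k) ℝ),
          Tendsto (fun n => pMean Ω χ (lam n) (u n) w Q) atTop
            (𝓝 ((∫ f : MW, MvPolynomial.eval (fun j => f (w j)) Q ∂γ) *
              ∫ z in Ω, χ z / z.im ^ 2))) ∧
        ∀ q : ℕ, Tendsto (fun n => ∫ z in Ω, χ z / z.im ^ 2 * u n z ^ q) atTop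
          (𝓝 ((∫ x, x ^ q ∂(gaussianReal 0 1)) * ∫ z in Ω, χ z / z.im ^ 2))) ∧
    ((∀ ψ, TF Ω ψ → (∀ z, 0 ≤ ψ z) →
      ∃ C : ℝ, ∀ (k : ℕ) (w : Fin k → ℂ) (Q : MvPolynomial (Fin k) ℝ), (∀ j, w j ∈ U) →
        ∀ ε : ℝ, 0 < ε → ∀ᶠ n in atTop, pMean Ω ψ (lam n) (u n) w Q ^ 2 ≤
          C * (∫ f : MW, MvPolynomial.eval (fun j => f (w j)) Q ^ 2 ∂γ) + ε) ↔
      ∀ χ, TF Ω χ → ∀ (k : ℕ) (w : Fin k → ℂ) (Q : MvPolynomial (Fin k) ℝ),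
        Tendsto (fun n => pMean Ω χ (lam n) (u n) w Q) atTop
          (𝓝 ((∫ f : MW, MvPolynomial.eval (fun j => f (w j)) Q ∂γ) *
            ∫ z in Ω, χ z / z.im ^ 2))) :=
  main p_ps Pool.Agent.H358.PM.pq (Pool.Agent.H370.PM.pv gm) gm Ω lam u H γ hγp hγ U
    hU hne (cut H.op)

end Pool.Agent.H992.PM
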