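import Pool.Agent.H992.PM.Defs
import Pool.Agent.H992.SF.GDefs

/-!
# Polynomials in the values of several eigenfunctions: definitions and interfaces (MP_a28cf0_nt)
-/

set_option autoImplicit false
open MeasureTheory Filter Topology Complex ProbabilityTheory
open scoped ContDiff ENNReal

namespace Pool.Agent.H992.PM

open Pool.Agent.W745.RW (TF)
open Pool.Agent.N661.BR (MW IsRandomWave)
open Pool.Agent.N661.BH (loc)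
open Pool.Agent.N814.BHM (P mass)
open Pool.Agent.N814.BHASM (Hyp X)
open Pool.Agent.H992.LB (eγ eX)
open Pool.Agent.H992.SF (eJ eXJ On In Struct pr)

noncomputable section

/-- The mean of the polynomial `Q` in the values at the points `w i j` of the rescaled functions
`w ↦ u i (z + y λ_i^{-1/2} w)`, over all orthonormal frames at `z = x + i y` (common rotations and
reflections of all points `w i j`), integrated against `ψ (z) dx dy / y²`. The variable `(i, j)`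
of `Q` is the value of the function number `i` at `w i j`. -/
def jpMean {d : ℕ} (Ω : Set ℂ) (ψ : ℂ → ℝ) (lam : Fin d → ℝ) (u : Fin d → ℂ → ℝ) {k : ℕ}
    (w : Fin d → Fin k → ℂ) (Q : MvPolynomial (Fin d × Fin k) ℝ) : ℝ :=
  ∫ z in Ω, ψ z / z.im ^ 2 * (1 / (4 * Real.pi) * ∫ θ in (0:ℝ)..(2 * Real.pi),
    (MvPolynomial.eval (fun q : Fin d × Fin k =>
        loc (lam q.1) (u q.1) z (Complex.exp (θ * I) * w q.1 q.2)) Q +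
      MvPolynomial.eval (fun q : Fin d × Fin k =>
        loc (lam q.1) (u q.1) z (Complex.exp (θ * I) * starRingEnd ℂ (w q.1 q.2))) Q))

/-- the upper bound for polynomials in the values of the functions in `A` at points of `U` -/
def JPBound {d : ℕ} (Ω : Set ℂ) (lam : Fin d → ℕ → ℝ) (u : Fin d → ℕ → ℂ → ℝ) (γ : Measure MW)
    (U : Fin d → Set ℂ) (A : Finset (Fin d)) (ψ : ℂ → ℝ) : Prop :=
  ∃ C : ℝ, ∀ (k : ℕ) (w : Fin d → Fin k → ℂ) (Q : MvPolynomial (Fin d × Fin k) ℝ),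
    (∀ i j, w i j ∈ U i) → (∀ q ∈ Q.vars, q.1 ∈ A) → ∀ ε : ℝ, 0 < ε → ∀ᶠ n in atTop,
      jpMean Ω ψ (fun i => lam i n) (fun i => u i n) w Q ^ 2 ≤
        C * (∫ F : Fin d → MW, MvPolynomial.eval (fun q : Fin d × Fin k => F q.1 (w q.1 q.2)) Q ^ 2
          ∂(Measure.pi fun _ => γ)) + ε

/-- the weighted upper bound for trigonometric sums -/
def WBd {d : ℕ} (Ω : Set ℂ) (lam : Fin d → ℕ → ℝ) (u : Fin d → ℕ → ℂ → ℝ) (γ : Measure MW)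
    (U : Fin d → Set ℂ) (A : Finset (Fin d)) (ψ : ℂ → ℝ) : Prop :=
  ∃ C : ℝ, ∀ (n : ℕ) (c : Fin n → ℂ) (τ : Fin n → Fin d → ℂ →₀ ℝ), (∀ m, On A (τ m)) →
    (∀ m, In U (τ m)) → ∀ ε : ℝ, 0 < ε → ∀ᶠ l in atTop,
      ‖∑ m, c m * ∫ p, (ψ p.1 : ℂ) * eXJ (fun i => lam i l) (fun i => u i l) (τ m) p ∂(P Ω)‖ ^ 2 ≤
        C * (∫ F, ‖∑ m, c m * eJ (τ m) F‖ ^ 2 ∂(pr d γ)) + ε

/-- convergence of the weighted joint laws of the functions in `A` to independent waves -/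
def JConv {d : ℕ} (Ω : Set ℂ) (lam : Fin d → ℕ → ℝ) (u : Fin d → ℕ → ℂ → ℝ) (γ : Measure MW)
    (A : Finset (Fin d)) (ψ : ℂ → ℝ) : Prop :=
  ∀ τ, On A τ → Tendsto (fun n => ∫ p, (ψ p.1 : ℂ) *
    eXJ (fun i => lam i n) (fun i => u i n) τ p ∂(P Ω)) atTop
      (𝓝 ((∏ i, ∫ f, eγ (τ i) f ∂γ) * ∫ p, (ψ p.1 : ℂ) ∂(P Ω)))

/-! ### Interfaces -/

/-- JM/JB -/
def S_JB : Prop := ∀ (d : ℕ) (Ω : Set ℂ) (lam : Fin d → ℕ → ℝ) (u : Fin d → ℕ → ℂ → ℝ),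
  0 < d → (∀ i, Hyp Ω (lam i) (u i)) → ∀ ψ, TF Ω ψ →
  ∀ (k : ℕ) (w : Fin d → Fin k → ℂ) (Q : MvPolynomial (Fin d × Fin k) ℝ), ∀ᶠ n in atTop,
    Integrable (fun p => ψ p.1 * MvPolynomial.eval
      (fun q : Fin d × Fin k => Xr (lam q.1 n) (u q.1 n) (w q.1 q.2) p) Q) (P Ω) ∧
    jpMean Ω ψ (fun i => lam i n) (fun i => u i n) w Q = mass Ω * ∫ p, ψ p.1 *
      MvPolynomial.eval (fun q : Fin d × Fin k => Xr (lam q.1 n) (u q.1 n) (w q.1 q.2) p) Q ∂(P Ω)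

/-- JM/JT -/
def S_JT : Prop := ∀ (d : ℕ) (Ω : Set ℂ) (lam : Fin d → ℕ → ℝ) (u : Fin d → ℕ → ℂ → ℝ),
  0 < d → (∀ i, Hyp Ω (lam i) (u i)) →
  ∀ γ : Measure MW, IsProbabilityMeasure γ → IsRandomWave γ → ∀ ψ, TF Ω ψ → (∀ z, 0 ≤ ψ z) →
  ∀ U : Fin d → Set ℂ, (∀ i, (U i).Nonempty) → ∀ A : Finset (Fin d),
  JPBound Ω lam u γ U A ψ → WBd Ω lam u γ U A ψ

/-- JM/JCLS -/
def S_JCLS : Prop := ∀ (d : ℕ) (Ω : Set ℂ) (lam : Fin d → ℕ → ℝ) (u : Fin d → ℕ → ℂ → ℝ),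
  0 < d → (∀ i, Hyp Ω (lam i) (u i)) → Struct lam →
  ∀ γ : Measure MW, IsProbabilityMeasure γ → IsRandomWave γ → ∀ ψ, TF Ω ψ → (∀ z, 0 ≤ ψ z) →
  ∀ U : Fin d → Set ℂ, (∀ i, IsOpen (U i)) → (∀ i, (U i).Nonempty) → ∀ A : Finset (Fin d),
  WBd Ω lam u γ U A ψ → JConv Ω lam u γ A ψ

/-- JM/JPEEL -/
def S_JPEEL : Prop := ∀ (d : ℕ) (Ω : Set ℂ) (lam : Fin d → ℕ → ℝ) (u : Fin d → ℕ → ℂ → ℝ),
  0 < d → (∀ i, Hyp Ω (lam i) (u i)) → Struct lam →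
  ∀ γ : Measure MW, IsProbabilityMeasure γ → IsRandomWave γ →
  ∀ A S : Finset (Fin d), (∀ i ∈ A, ∀ j ∈ S, Tendsto (fun n => lam j n / lam i n) atTop (𝓝 0)) →
  ∀ ψ, TF Ω ψ → (∀ z, 0 ≤ ψ z) → JConv Ω lam u γ A ψ →
  ∀ χ, TF Ω χ → (∃ K : ℝ, ∀ z, |χ z| ≤ K * ψ z) →
  ∀ σ : Fin d → ℂ →₀ ℝ, On S σ → ∀ τ, On A τ →
  Tendsto (fun n => (∫ p, (χ p.1 : ℂ) *
      eXJ (fun i => lam i n) (fun i => u i n) (fun i => τ i + σ i) p ∂(P Ω)) -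
    (∏ i, ∫ f, eγ (τ i) f ∂γ) * ∫ p, (χ p.1 : ℂ) *
      eXJ (fun i => lam i n) (fun i => u i n) σ p ∂(P Ω)) atTop (𝓝 0)

/-- JM/JALL -/
def S_JALL : Prop := ∀ (d : ℕ) (Ω : Set ℂ) (lam : Fin d → ℕ → ℝ) (u : Fin d → ℕ → ℂ → ℝ),
  0 < d → (∀ i, Hyp Ω (lam i) (u i)) → Struct lam →
  ∀ γ : Measure MW, IsProbabilityMeasure γ → IsRandomWave γ →
  ∀ κ : Fin d → ℕ, (∀ i j, κ i < κ j → Tendsto (fun n => lam j n / lam i n) atTop (𝓝 0)) →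
  ∀ ψ, TF Ω ψ → (∀ z, 0 ≤ ψ z) →
  (∀ a : ℕ, JConv Ω lam u γ (Finset.univ.filter fun i => κ i = a) ψ) →
  ∀ χ, TF Ω χ → (∃ K : ℝ, ∀ z, |χ z| ≤ K * ψ z) → JConv Ω lam u γ Finset.univ χ

/-- JM/JGEN -/
def S_JGEN : Prop := ∀ (d : ℕ) (Ω : Set ℂ) (lam : Fin d → ℕ → ℝ) (u : Fin d → ℕ → ℂ → ℝ),
  0 < d → (∀ i, Hyp Ω (lam i) (u i)) →
  ∀ γ : Measure MW, IsProbabilityMeasure γ → IsRandomWave γ →
  ∀ κ : Fin d → ℕ, (∀ i j, κ i < κ j → Tendsto (fun n => lam j n / lam i n) atTop (𝓝 0)) →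
  ∀ ψ, TF Ω ψ → (∀ z, 0 ≤ ψ z) →
  ∀ U : Fin d → Set ℂ, (∀ i, IsOpen (U i)) → (∀ i, (U i).Nonempty) →
  (∀ a : ℕ, WBd Ω lam u γ U (Finset.univ.filter fun i => κ i = a) ψ) →
  ∀ χ, TF Ω χ → (∃ K : ℝ, ∀ z, |χ z| ≤ K * ψ z) → JConv Ω lam u γ Finset.univ χ

/-- JM/JP1 -/
def S_JP1 : Prop := ∀ (d : ℕ) (Ω : Set ℂ) (lam : Fin d → ℕ → ℝ) (u : Fin d → ℕ → ℂ → ℝ),
  ∀ γ : Measure MW, IsProbabilityMeasure γ → IsRandomWave γ → ∀ ψ : ℂ → ℝ,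
  ∀ U : Fin d → Set ℂ, (∀ i, (U i).Nonempty) → ∀ A : Finset (Fin d), JPBound Ω lam u γ U A ψ →
  ∀ i ∈ A, PBound Ω (lam i) (u i) γ (U i) ψ

/-- JM/JP -/
def S_JP : Prop := ∀ (d : ℕ) (Ω : Set ℂ) (lam : Fin d → ℕ → ℝ) (u : Fin d → ℕ → ℂ → ℝ),
  0 < d → (∀ i, Hyp Ω (lam i) (u i)) →
  ∀ γ : Measure MW, IsProbabilityMeasure γ → IsRandomWave γ → ∀ χ, TF Ω χ → (∀ z, 0 ≤ χ z) →
  JConv Ω lam u γ Finset.univ χ → (∀ i, MB Ω (lam i) (u i) χ) →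
  ∀ (k : ℕ) (w : Fin d → Fin k → ℂ) (Q : MvPolynomial (Fin d × Fin k) ℝ),
    Tendsto (fun n => jpMean Ω χ (fun i => lam i n) (fun i => u i n) w Q) atTop
      (𝓝 ((∫ F : Fin d → MW, MvPolynomial.eval (fun q : Fin d × Fin k => F q.1 (w q.1 q.2)) Q
        ∂(Measure.pi fun _ => γ)) * ∫ z in Ω, χ z / z.im ^ 2))

/-- JM/JS: the local theorem -/
def S_JS : Prop := ∀ (d : ℕ) (Ω : Set ℂ) (lam : Fin d → ℕ → ℝ) (u : Fin d → ℕ → ℂ → ℝ),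
  0 < d → (∀ i, Hyp Ω (lam i) (u i)) →
  ∀ γ : Measure MW, IsProbabilityMeasure γ → IsRandomWave γ →
  ∀ κ : Fin d → ℕ, (∀ i j, κ i < κ j → Tendsto (fun n => lam j n / lam i n) atTop (𝓝 0)) →
  ∀ ψ, TF Ω ψ → (∀ z, 0 ≤ ψ z) →
  ∀ U : Fin d → Set ℂ, (∀ i, IsOpen (U i)) → (∀ i, (U i).Nonempty) →
  (∀ a : ℕ, JPBound Ω lam u γ U (Finset.univ.filter fun i => κ i = a) ψ) →
  ∀ χ, TF Ω χ → tsupport χ ⊆ {z | 0 < ψ z} →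
  ∀ (k : ℕ) (w : Fin d → Fin k → ℂ) (Q : MvPolynomial (Fin d × Fin k) ℝ),
    Tendsto (fun n => jpMean Ω χ (fun i => lam i n) (fun i => u i n) w Q) atTop
      (𝓝 ((∫ F : Fin d → MW, MvPolynomial.eval (fun q : Fin d × Fin k => F q.1 (w q.1 q.2)) Q
        ∂(Measure.pi fun _ => γ)) * ∫ z in Ω, χ z / z.im ^ 2))

/-- JM/JV: the converse -/
def S_JV : Prop := ∀ (d : ℕ) (Ω : Set ℂ) (lam : Fin d → ℕ → ℝ) (u : Fin d → ℕ → ℂ → ℝ)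
  (γ : Measure MW), IsProbabilityMeasure γ → IsRandomWave γ → ∀ ψ : ℂ → ℝ,
  (∀ (k : ℕ) (w : Fin d → Fin k → ℂ) (Q : MvPolynomial (Fin d × Fin k) ℝ),
    Tendsto (fun n => jpMean Ω ψ (fun i => lam i n) (fun i => u i n) w Q) atTop
      (𝓝 ((∫ F : Fin d → MW, MvPolynomial.eval (fun q : Fin d × Fin k => F q.1 (w q.1 q.2)) Q
        ∂(Measure.pi fun _ => γ)) * ∫ z in Ω, ψ z / z.im ^ 2))) →
  ∀ (U : Fin d → Set ℂ) (A : Finset (Fin d)), JPBound Ω lam u γ U A ψ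

/-- JM/JQ: products of powers -/
def S_JQ : Prop := ∀ (d : ℕ) (Ω : Set ℂ) (χ : ℂ → ℝ) (lam : Fin d → ℝ) (u : Fin d → ℂ → ℝ)
  (a : Fin d → ℕ),
  jpMean Ω χ lam u (fun _ (_ : Fin 1) => 0) (∏ i, MvPolynomial.X (i, 0) ^ a i) =
    (∫ z in Ω, χ z / z.im ^ 2 * ∏ i, u i z ^ a i) ∧
  ∀ γ : Measure MW, IsProbabilityMeasure γ → IsRandomWave γ →
    (∫ F : Fin d → MW, MvPolynomial.eval (fun q : Fin d × Fin 1 => F q.1 0)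
      (∏ i, MvPolynomial.X (i, 0) ^ a i) ∂(Measure.pi fun _ => γ)) =
    ∏ i, ∫ x, x ^ a i ∂(gaussianReal 0 1)

theorem jmain (hs : S_JS) (hq : S_JQ) (hv : S_JV) (d : ℕ) (Ω : Set ℂ)
    (lam : Fin (d + 1) → ℕ → ℝ) (u : Fin (d + 1) → ℕ → ℂ → ℝ)
    (H : ∀ i, Hyp Ω (lam i) (u i)) (γ : Measure MW) (hγp : IsProbabilityMeasure γ)
    (hγ : IsRandomWave γ) (U : Fin (d + 1) → Set ℂ) (hU : ∀ i, IsOpen (U i))
    (hne : ∀ i, (U i).Nonempty) (κ : Fin (d + 1) → ℕ)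
    (hκ : ∀ i j, κ i < κ j → Tendsto (fun n => lam j n / lam i n) atTop (𝓝 0))
    (hcut : ∀ χ, TF Ω χ → ∃ ψ, TF Ω ψ ∧ (∀ z, 0 ≤ ψ z) ∧ tsupport χ ⊆ {z | 0 < ψ z}) :
    (∀ ψ, TF Ω ψ → (∀ z, 0 ≤ ψ z) →
      (∀ a : ℕ, ∃ C : ℝ, ∀ (k : ℕ) (w : Fin (d + 1) → Fin k → ℂ)
        (Q : MvPolynomial (Fin (d + 1) × Fin k) ℝ),
        (∀ i j, w i j ∈ U i) → (∀ q ∈ Q.vars, κ q.1 = a) → ∀ ε : ℝ, 0 < ε → ∀ᶠ n in atTop,
          jpMean Ω ψ (fun i => lam i n) (fun i => u i n) w Q ^ 2 ≤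
            C * (∫ F : Fin (d + 1) → MW,
              MvPolynomial.eval (fun q : Fin (d + 1) × Fin k => F q.1 (w q.1 q.2)) Q ^ 2
                ∂(Measure.pi fun _ => γ)) + ε) →
      ∀ χ, TF Ω χ → tsupport χ ⊆ {z | 0 < ψ z} →
        (∀ (k : ℕ) (w : Fin (d + 1) → Fin k → ℂ) (Q : MvPolynomial (Fin (d + 1) × Fin k) ℝ),
          Tendsto (fun n => jpMean Ω χ (fun i => lam i n) (fun i => u i n) w Q) atTop
            (𝓝 ((∫ F : Fin (d + 1) → MW,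
              MvPolynomial.eval (fun q : Fin (d + 1) × Fin k => F q.1 (w q.1 q.2)) Q
                ∂(Measure.pi fun _ => γ)) * ∫ z in Ω, χ z / z.im ^ 2))) ∧
        ∀ a : Fin (d + 1) → ℕ,
          Tendsto (fun n => ∫ z in Ω, χ z / z.im ^ 2 * ∏ i, u i n z ^ a i) atTop
            (𝓝 ((∏ i, ∫ x, x ^ a i ∂(gaussianReal 0 1)) * ∫ z in Ω, χ z / z.im ^ 2))) ∧
    ((∀ ψ, TF Ω ψ → (∀ z, 0 ≤ ψ z) →
      ∀ a : ℕ, ∃ C : ℝ, ∀ (k : ℕ) (w : Fin (d + 1) → Fin k → ℂ)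
        (Q : MvPolynomial (Fin (d + 1) × Fin k) ℝ),
        (∀ i j, w i j ∈ U i) → (∀ q ∈ Q.vars, κ q.1 = a) → ∀ ε : ℝ, 0 < ε → ∀ᶠ n in atTop,
          jpMean Ω ψ (fun i => lam i n) (fun i => u i n) w Q ^ 2 ≤
            C * (∫ F : Fin (d + 1) → MW,
              MvPolynomial.eval (fun q : Fin (d + 1) × Fin k => F q.1 (w q.1 q.2)) Q ^ 2
                ∂(Measure.pi fun _ => γ)) + ε) ↔
      ∀ χ, TF Ω χ → ∀ (k : ℕ) (w : Fin (d + 1) → Fin k → ℂ)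
        (Q : MvPolynomial (Fin (d + 1) × Fin k) ℝ),
        Tendsto (fun n => jpMean Ω χ (fun i => lam i n) (fun i => u i n) w Q) atTop
          (𝓝 ((∫ F : Fin (d + 1) → MW,
            MvPolynomial.eval (fun q : Fin (d + 1) × Fin k => F q.1 (w q.1 q.2)) Q
              ∂(Measure.pi fun _ => γ)) * ∫ z in Ω, χ z / z.im ^ 2))) := by
  have key : ∀ (ψ : ℂ → ℝ) (a : ℕ),
      JPBound Ω lam u γ U (Finset.univ.filter fun i => κ i = a) ψ ↔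
      ∃ C : ℝ, ∀ (k : ℕ) (w : Fin (d + 1) → Fin k → ℂ)
        (Q : MvPolynomial (Fin (d + 1) × Fin k) ℝ),
        (∀ i j, w i j ∈ U i) → (∀ q ∈ Q.vars, κ q.1 = a) → ∀ ε : ℝ, 0 < ε → ∀ᶠ n in atTop,
          jpMean Ω ψ (fun i => lam i n) (fun i => u i n) w Q ^ 2 ≤
            C * (∫ F : Fin (d + 1) → MW,
              MvPolynomial.eval (fun q : Fin (d + 1) × Fin k => F q.1 (w q.1 q.2)) Q ^ 2
                ∂(Measure.pi fun _ => γ)) + ε := by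
    intro ψ a
    have h0 : ∀ i : Fin (d + 1), i ∈ (Finset.univ.filter fun i => κ i = a) ↔ κ i = a := by
      intro i
      simp
    unfold JPBound
    simp only [h0]
  have h1 := hs (d + 1) Ω lam u (Nat.succ_pos d) H γ hγp hγ κ hκ
  refine ⟨fun ψ hψ h0 hb χ hχ hsub => ?_, fun hb χ hχ => ?_, fun hc ψ hψ h0 a => ?_⟩
  · have h2 := h1 ψ hψ h0 U hU hne (fun a => (key ψ a).2 (hb a)) χ hχ hsub
    refine ⟨h2, fun a => ?_⟩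
    have h3 := h2 1 (fun _ _ => 0) (∏ i, MvPolynomial.X (i, 0) ^ a i)
    rw [(hq (d + 1) Ω χ (fun i => lam i 0) (fun i => u i 0) a).2 γ hγp hγ] at h3
    exact h3.congr fun n => (hq (d + 1) Ω χ (fun i => lam i n) (fun i => u i n) a).1
  · obtain ⟨ψ, hψ, h0, hsub⟩ := hcut χ hχ
    exact h1 ψ hψ h0 U hU hne (fun a => (key ψ a).2 (hb ψ hψ h0 a)) χ hχ hsub
  · exact (key ψ a).1 (hv (d + 1) Ω lam u γ hγp hγ ψ (hc ψ hψ) U _)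

end

end Pool.Agent.H992.PM
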