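import Pool.Agent.H992.PM.JDefs
import Pool.Agent.H992.PM.Fin
import Pool.Agent.H992.SF.GFin
import Pool.Agent.H650.JM.JB
import Pool.Agent.H356.JM.JT
import Pool.Agent.H969.JM.JCLS
import Pool.Agent.H161.JM.JPEEL
import Pool.Agent.H591.JM.JALL
import Pool.Agent.H34.JM.JGEN
import Pool.Agent.H618.JM.JP1
import Pool.Agent.H668.JM.JP
import Pool.Agent.H599.JM.JS
import Pool.Agent.H287.JM.JV
import Pool.Agent.H101.JM.JQ
/-!
# Joint polynomial bounds: final assembly (MP_a28cf0_nt)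
-/

set_option autoImplicit false
open MeasureTheory Filter Topology Complex ProbabilityTheory
open scoped ContDiff ENNReal

namespace Pool.Agent.H992.PM

open Pool.Agent.W745.RW (TF)
open Pool.Agent.N661.BR (MW IsRandomWave)
open Pool.Agent.N814.BHASM (Hyp)

theorem j_jcls : S_JCLS :=
  Pool.Agent.H969.JM.jcls Pool.Agent.H767.SG.rz Pool.Agent.H992.SF.g_core
    Pool.Agent.H323.SG.ext
theorem j_jall : S_JALL :=
  Pool.Agent.H591.JM.jall (Pool.Agent.H161.JM.jpeel Pool.Agent.H767.SG.rz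
    Pool.Agent.H992.SF.g_core)
theorem j_jgen : S_JGEN := Pool.Agent.H34.JM.jgen Pool.Agent.H264.SG.sub j_jcls j_jall
theorem j_js : S_JS :=
  Pool.Agent.H599.JM.js Pool.Agent.H650.JM.jb (Pool.Agent.H356.JM.jt Pool.Agent.H650.JM.jb gm)
    j_jgen Pool.Agent.H618.JM.jp1 p_mb
    (Pool.Agent.H668.JM.jp Pool.Agent.H650.JM.jb gm Pool.Agent.H297.PM.pc)
theorem j_jv : S_JV := Pool.Agent.H287.JM.jv gm
theorem j_jq : S_JQ := Pool.Agent.H101.JM.jq gm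

theorem jfin (d : ℕ) (Ω : Set ℂ)
    (lam : Fin (d + 1) → ℕ → ℝ) (u : Fin (d + 1) → ℕ → ℂ → ℝ)
    (H : ∀ i, Hyp Ω (lam i) (u i)) (γ : Measure MW) (hγp : IsProbabilityMeasure γ)
    (hγ : IsRandomWave γ) (U : Fin (d + 1) → Set ℂ) (hU : ∀ i, IsOpen (U i))
    (hne : ∀ i, (U i).Nonempty) (κ : Fin (d + 1) → ℕ)
    (hκ : ∀ i j, κ i < κ j → Tendsto (fun n => lam j n / lam i n) atTop (𝓝 0)) :
    (∀ ψ, TF Ω ψ → (∀ z, 0 ≤ ψ z) →
      (∀ a : ℕ, ∃ C : ℝ, ∀ (k : ℕ) (w : Fin (d + 1) → Fin k → ℂ)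
        (Q : MvPolynomial (Fin (d + 1) × Fin k) ℝ),
        (∀ i j, w i j ∈ U i) → (∀ q ∈ Q.vars, κ q.1 = a) → ∀ ε : ℝ, 0 < ε → ∀ᶠ n in atTop,
          jpMean Ω ψ (fun i => lam i n) (fun i => u i n) w Q ^ 2 ≤
            C * (∫ F : Fin (d + 1) → MW,
              MvPolynomial.eval (fun q : Fin (d + 1) × Fin k => F q.1 (w q.1 q.2)) Q ^ 2
                ∂(Measure.pi fun _ => γ)) + ε) →
      ∀ χ, TF Ω χ → tsupport χ ⊆ {z | 0 < ψ z} →
        (∀ (k : ℕ) (w : Fin (d + 1) → Fin k → ℂ) (Q : MvPolynomial (Fin (d + 1) × Fin k) ℝ),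
          Tendsto (fun n => jpMean Ω χ (fun i => lam i n) (fun i => u i n) w Q) atTop
            (𝓝 ((∫ F : Fin (d + 1) → MW,
              MvPolynomial.eval (fun q : Fin (d + 1) × Fin k => F q.1 (w q.1 q.2)) Q
                ∂(Measure.pi fun _ => γ)) * ∫ z in Ω, χ z / z.im ^ 2))) ∧
        ∀ a : Fin (d + 1) → ℕ,
          Tendsto (fun n => ∫ z in Ω, χ z / z.im ^ 2 * ∏ i, u i n z ^ a i) atTop
            (𝓝 ((∏ i, ∫ x, x ^ a i ∂(gaussianReal 0 1)) * ∫ z in Ω, χ z / z.im ^ 2))) ∧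
    ((∀ ψ, TF Ω ψ → (∀ z, 0 ≤ ψ z) →
      ∀ a : ℕ, ∃ C : ℝ, ∀ (k : ℕ) (w : Fin (d + 1) → Fin k → ℂ)
        (Q : MvPolynomial (Fin (d + 1) × Fin k) ℝ),
        (∀ i j, w i j ∈ U i) → (∀ q ∈ Q.vars, κ q.1 = a) → ∀ ε : ℝ, 0 < ε → ∀ᶠ n in atTop,
          jpMean Ω ψ (fun i => lam i n) (fun i => u i n) w Q ^ 2 ≤
            C * (∫ F : Fin (d + 1) → MW,
              MvPolynomial.eval (fun q : Fin (d + 1) × Fin k => F q.1 (w q.1 q.2)) Q ^ 2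
                ∂(Measure.pi fun _ => γ)) + ε) ↔
      ∀ χ, TF Ω χ → ∀ (k : ℕ) (w : Fin (d + 1) → Fin k → ℂ)
        (Q : MvPolynomial (Fin (d + 1) × Fin k) ℝ),
        Tendsto (fun n => jpMean Ω χ (fun i => lam i n) (fun i => u i n) w Q) atTop
          (𝓝 ((∫ F : Fin (d + 1) → MW,
            MvPolynomial.eval (fun q : Fin (d + 1) × Fin k => F q.1 (w q.1 q.2)) Q
              ∂(Measure.pi fun _ => γ)) * ∫ z in Ω, χ z / z.im ^ 2))) :=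
  jmain j_js j_jq j_jv d Ω lam u H γ hγp hγ U hU hne κ hκ (cut (H 0).op)

end Pool.Agent.H992.PM
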